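import Mathlib
import Pool.Agent.Helper82.ETN.Num4
import Pool.Agent.E2S.Final

/-!
# E-T (MP_12a1af_nt), phase 2: the numerical part of the final assembly
-/

open Finset Filter Topology

namespace Pool.Agent.Helper82.E2

open Pool.Agent.Helper29.ETK (CC lg kk Gq)
open Pool.Agent.Helper29.E2 (ep epo gth)
open Pool.Agent.E2S
open Pool.Agent.Helper82.ETN (CC_pos one_lt_CC pow_lg_le lt_pow_lg two_pow_kk_le lg_le_log
  pow_lg_le_rpow log_pow_le_all NumHyp sN sN_le)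

/-- square roots -/
lemma le_sqr {a K : ℕ} (h : a ^ 2 ≤ K) : (a:ℝ) ≤ (K:ℝ) ^ (1/2 : ℝ) := by
  have h1 : ((a:ℝ) ^ (2:ℕ)) ≤ K := by exact_mod_cast h
  have h2 : (a:ℝ) = ((a:ℝ) ^ (2:ℕ)) ^ (1/2:ℝ) := by
    rw [← Real.rpow_natCast, ← Real.rpow_mul (Nat.cast_nonneg _)]
    norm_num
  rw [h2]
  exact Real.rpow_le_rpow (by positivity) h1 (by norm_num)

lemma sqr_le {a K : ℕ} (h : K ≤ a ^ 2) : (K:ℝ) ^ (1/2 : ℝ) ≤ a := by
  have h1 : (K:ℝ) ≤ ((a:ℝ) ^ (2:ℕ)) := by exact_mod_cast h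
  have h2 : (a:ℝ) = ((a:ℝ) ^ (2:ℕ)) ^ (1/2:ℝ) := by
    rw [← Real.rpow_natCast, ← Real.rpow_mul (Nat.cast_nonneg _)]
    norm_num
  rw [h2]
  exact Real.rpow_le_rpow (by positivity) h1 (by norm_num)

/-- lower bound of the near threshold -/
lemma gth_ge (c K : ℕ) (hc : 1 ≤ c) :
    K ≤ (CC c ^ 4 * (2 ^ 14 * (3 * lg c K + 10)) * gth c K) ^ 2 := by
  have h1 := lt_pow_lg (c := c) (K := K) hc
  set E := epo c K with hE
  have hlE : lg c K ≤ 2 * E + 2 := by rw [hE]; unfold epo; omega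
  have hElg : E ≤ lg c K := by rw [hE]; unfold epo; omega
  have h2 : CC c ^ (E - 1 - 1) ≤ gth c K * 2 ^ (10 + kk (E - 1)) := by
    unfold gth Gq CC
    rw [← hE, ← pow_mul, ← pow_add]
    exact Nat.pow_le_pow_right two_pos (by omega)
  have h3 : 2 ^ (10 + kk (E - 1)) ≤ 2 ^ 14 * (3 * lg c K + 10) := by
    rw [pow_add]
    have := two_pow_kk_le (E - 1)
    have h4 : 16 * (3 * (E - 1) + 10) ≤ 16 * (3 * lg c K + 10) := by omega
    calc 2 ^ 10 * 2 ^ kk (E - 1) ≤ 2 ^ 10 * (16 * (3 * lg c K + 10)) :=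
          Nat.mul_le_mul_left _ (this.trans h4)
      _ = 2 ^ 14 * (3 * lg c K + 10) := by ring
  have h5 : CC c ^ (E - 1 - 1) ≤ (2 ^ 14 * (3 * lg c K + 10)) * gth c K := by
    calc CC c ^ (E - 1 - 1) ≤ gth c K * 2 ^ (10 + kk (E - 1)) := h2
      _ ≤ gth c K * (2 ^ 14 * (3 * lg c K + 10)) := Nat.mul_le_mul_left _ h3
      _ = _ := by ring
  calc K ≤ CC c ^ (lg c K + 1) := h1.le
    _ ≤ CC c ^ (2 * (4 + (E - 1 - 1))) := Nat.pow_le_pow_right (CC_pos c) (by omega)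
    _ = (CC c ^ 4 * CC c ^ (E - 1 - 1)) ^ 2 := by rw [← pow_add, ← pow_mul]; congr 1; ring
    _ ≤ (CC c ^ 4 * ((2 ^ 14 * (3 * lg c K + 10)) * gth c K)) ^ 2 :=
        Nat.pow_le_pow_left (Nat.mul_le_mul_left _ h5) 2
    _ = _ := by ring

lemma gth_pos (c K : ℕ) : 1 ≤ gth c K := by
  unfold gth Gq
  exact Nat.one_le_two_pow

/-- upper bound of the near threshold -/
lemma gth_le {c K : ℕ} (hK : 1 ≤ K) : gth c K ^ 2 ≤ K := by
  rcases Nat.eq_zero_or_pos (lg c K) with h | h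
  · have : gth c K = 1 := by
      unfold gth Gq epo
      rw [h]
      simp
    rw [this]
    simpa using hK
  · have h1 : gth c K ≤ CC c ^ epo c K := by
      unfold gth Gq CC
      rw [← pow_mul]
      refine Nat.pow_le_pow_right two_pos ?_
      have : c * (epo c K - 1 - 1) ≤ c * epo c K := Nat.mul_le_mul_left _ (by omega)
      omega
    calc gth c K ^ 2 ≤ (CC c ^ epo c K) ^ 2 := Nat.pow_le_pow_left h1 2
      _ = CC c ^ (2 * epo c K) := by rw [← pow_mul, mul_comm]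
      _ ≤ CC c ^ lg c K := Nat.pow_le_pow_right (CC_pos c) (by unfold epo; omega)
      _ ≤ K := pow_lg_le hK

lemma pow_ep_le {c K : ℕ} (hK : 1 ≤ K) : ((CC c ^ ep c K : ℕ) : ℝ) ≤ (K:ℝ) ^ (1/2 : ℝ) := by
  refine le_sqr ?_
  refine le_trans ?_ (pow_lg_le (c := c) hK)
  unfold ep
  rw [← pow_mul]
  exact Nat.pow_le_pow_right (CC_pos c) (by omega)

lemma exists_le_gth {c : ℕ} (hc : 2 ≤ c) : ∃ G0 : ℝ, 0 < G0 ∧ ∀ K : ℕ, 1 ≤ K →
    (K:ℝ) ^ (1/2 : ℝ) ≤ G0 * (1 + Real.log K) * gth c K := by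
  have hC1 : (1:ℝ) ≤ CC c := by exact_mod_cast CC_pos c
  refine ⟨(CC c : ℝ) ^ 4 * ((2 ^ 14 * 10 : ℕ) : ℝ), by positivity, fun K hK => ?_⟩
  have h1 := sqr_le (gth_ge c K (by omega))
  have h2 := lg_le_log hc hK
  have h0 : (0:ℝ) ≤ lg c K := Nat.cast_nonneg _
  have h3 : ((2 ^ 14 * (3 * lg c K + 10) : ℕ) : ℝ) ≤ ((2 ^ 14 * 10 : ℕ) : ℝ) * (1 + Real.log K) := by
    push_cast
    linarith
  have h4 : ((CC c ^ 4 * (2 ^ 14 * (3 * lg c K + 10)) * gth c K : ℕ) : ℝ) =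
      (CC c : ℝ) ^ 4 * ((2 ^ 14 * (3 * lg c K + 10) : ℕ) : ℝ) * gth c K := by
    rw [Nat.cast_mul, Nat.cast_mul, Nat.cast_pow]
  rw [h4] at h1
  refine h1.trans ?_
  have h5 : (0:ℝ) ≤ gth c K := Nat.cast_nonneg _
  have h6 : (0:ℝ) ≤ (CC c : ℝ) ^ 4 := by positivity
  calc (CC c : ℝ) ^ 4 * ((2 ^ 14 * (3 * lg c K + 10) : ℕ) : ℝ) * gth c K
      ≤ (CC c : ℝ) ^ 4 * (((2 ^ 14 * 10 : ℕ) : ℝ) * (1 + Real.log K)) * gth c K :=
        mul_le_mul_of_nonneg_right (mul_le_mul_of_nonneg_left h3 h6) h5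
    _ = _ := by ring

/-- the number of admissible beginnings -/
def sF (c K : ℕ) : ℕ := sN (2 * CC c) (gth c) K

/-- the numerical hypotheses of the first phase are used for the failure sum only -/
lemma numHyp_fail {a b c K1 : ℕ} (hc : 2 ≤ c) (hK1 : 1 ≤ K1) :
    NumHyp (2 * CC c) K1 (1/4) (gth c) (mmF a b c) (epsF c) (fun _ _ => 0) (fun _ => 0)
      (fun K => K) := by
  obtain ⟨G0, hG0, hG⟩ := exists_le_gth hc
  obtain ⟨c2, hc2, hlog2⟩ := log_pow_le_all 1 (1/12) (by norm_num)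
  refine ⟨by have := CC_pos c; omega, hK1, fun K _ => gth_pos c K, ?_, ?_, ?_, ?_, ?_, ?_, ?_⟩
  · refine ⟨G0 * c2, by positivity, fun K hK => ?_⟩
    have hK' : 1 ≤ K := hK1.trans hK
    have hKr : (1:ℝ) ≤ K := by exact_mod_cast hK'
    have hKp : (0:ℝ) < K := by linarith
    have e1 := hG K hK'
    have e2 := hlog2 K hK'
    rw [pow_one] at e2
    have e4 : (K:ℝ) ^ (1/3 - 1/4 : ℝ) * (K:ℝ) ^ (1/12 : ℝ) ≤ (K:ℝ) ^ (1/2:ℝ) := by
      rw [← Real.rpow_add hKp]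
      exact Real.rpow_le_rpow_of_exponent_le hKr (by norm_num)
    have e5 : 0 < (K:ℝ) ^ (1/12 : ℝ) := Real.rpow_pos_of_pos hKp _
    refine le_of_mul_le_mul_right ?_ e5
    refine e4.trans ?_
    calc (K:ℝ) ^ (1/2:ℝ) ≤ G0 * (1 + Real.log K) * gth c K := e1
      _ ≤ G0 * (c2 * (K:ℝ) ^ (1/12 : ℝ)) * gth c K :=
          mul_le_mul_of_nonneg_right (mul_le_mul_of_nonneg_left e2 hG0.le) (Nat.cast_nonneg _)
      _ = G0 * c2 * gth c K * (K:ℝ) ^ (1/12 : ℝ) := by ring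
  · refine ⟨1, one_pos, fun K hK => ?_⟩
    have hK' : 1 ≤ K := hK1.trans hK
    have hKr : (1:ℝ) ≤ K := by exact_mod_cast hK'
    rw [one_mul]
    refine (le_sqr (gth_le hK')).trans ?_
    exact Real.rpow_le_rpow_of_exponent_le hKr (by norm_num)
  · refine ⟨3 * a + b + 3, by positivity, fun K hK => ?_⟩
    have hK' : 1 ≤ K := hK1.trans hK
    have h1 : lg c K ≤ K := Nat.log_le_self (CC c) K
    have h2 : mmF a b c K ≤ (3 * a + b + 3) * K ^ 2 := by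
      unfold mmF lenF
      have h3 : a * (lg c K + 2) ≤ a * (3 * K) := Nat.mul_le_mul_left _ (by omega)
      have h4 : K ≤ K ^ 2 := by nlinarith
      nlinarith
    exact_mod_cast h2
  · intro K _
    have e : 8 * (2 * CC c) = 16 * CC c := by ring
    rw [e]
    unfold epsF
    exact ⟨by positivity, le_refl _⟩
  · intro K _
    exact ⟨by omega, le_refl _⟩
  · refine ⟨1, one_pos, fun K K' _ _ _ => ?_⟩
    have h1 : (0:ℝ) ≤ (K:ℝ) ^ (1/3 + 1/4 : ℝ) := Real.rpow_nonneg (Nat.cast_nonneg _) _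
    have h2 : (0:ℝ) ≤ ((K - K' : ℕ) + 1 : ℝ) := add_nonneg (Nat.cast_nonneg _) zero_le_one
    rw [Nat.cast_zero, one_mul]
    exact mul_nonneg h1 (add_nonneg zero_le_one (div_nonneg h1 h2))
  · refine ⟨1, one_pos, fun K _ => ?_⟩
    rw [Nat.cast_zero, one_mul]
    exact Real.rpow_nonneg (Nat.cast_nonneg _) _

lemma fail_lt {a b c K1 : ℕ} (hc : 2 ≤ c) (hK1 : 1 ≤ K1) : ∃ K0 : ℕ, K1 ≤ K0 ∧
    ∀ Kmax, ∑ K ∈ Icc K0 Kmax, Pool.Agent.E2F.failA (mmF a b c) (sF c) (epsF c) K < 1 := by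
  have H := (numHyp_fail (a := a) (b := b) hc hK1).failA_ev (by norm_num)
  obtain ⟨K0, h0⟩ := (H.and (eventually_ge_atTop K1)).exists_forall_of_atTop
  refine ⟨K0, (h0 K0 le_rfl).2, fun Kmax => ?_⟩
  refine lt_of_le_of_lt (Finset.sum_le_sum (fun K hK => ?_))
    (Pool.Agent.ETP.sum_half_pow_lt K0 Kmax)
  rw [mem_Icc] at hK
  have h1 := (h0 K hK.1).1
  have h2 : ((1:ℝ)/2) ^ (K+1) = (1/2) ^ (K+2) + (1/2) ^ (K+2) := by ring
  have h3 : (0:ℝ) ≤ (1/2) ^ (K+2) := by positivity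
  have h4 : Pool.Agent.E2F.failA (mmF a b c) (sF c) (epsF c) K =
    Pool.Agent.ETP.failA (mmF a b c) (sN (2 * CC c) (gth c)) (epsF c) K := rfl
  rw [h4]
  linarith

/-- the number of admissible beginnings has the order of the square root -/
lemma sF_le {c : ℕ} (hc : 2 ≤ c) {e : ℝ} (he : 0 < e) : ∃ C0 : ℝ, 0 < C0 ∧ ∀ K : ℕ, 1 ≤ K →
    (sF c K : ℝ) ≤ C0 * (K:ℝ) ^ (1/2 + e : ℝ) := by
  obtain ⟨G0, hG0, hG⟩ := exists_le_gth hc
  obtain ⟨c2, hc2, hlog2⟩ := log_pow_le_all 1 e he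
  have hC : (0:ℝ) < CC c := by exact_mod_cast CC_pos c
  refine ⟨64 * CC c * (G0 * c2) + 1, by positivity, fun K hK => ?_⟩
  have hKr : (1:ℝ) ≤ K := by exact_mod_cast hK
  have hKp : (0:ℝ) < K := by linarith
  have h1 := sN_le (2 * CC c) (gth c) K (gth_pos c K)
  have hg0 : (0:ℝ) < gth c K := by exact_mod_cast gth_pos c K
  have e1 := hG K hK
  have e2 := hlog2 K hK
  rw [pow_one] at e2
  have e3 : (1:ℝ) ≤ (K:ℝ) ^ (1/2 + e : ℝ) := Real.one_le_rpow hKr (by linarith)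
  have e4 : (K:ℝ) ≤ (G0 * c2) * (K:ℝ) ^ (1/2 + e : ℝ) * gth c K := by
    have f1 : (K:ℝ) = (K:ℝ) ^ (1/2 : ℝ) * (K:ℝ) ^ (1/2 : ℝ) := by
      rw [← Real.rpow_add hKp]
      norm_num
    have f2 : (K:ℝ) ^ (1/2 : ℝ) ≤ G0 * (c2 * (K:ℝ) ^ e) * gth c K :=
      e1.trans (mul_le_mul_of_nonneg_right (mul_le_mul_of_nonneg_left e2 hG0.le) hg0.le)
    have f3 : (0:ℝ) ≤ (K:ℝ) ^ (1/2 : ℝ) := Real.rpow_nonneg hKp.le _
    calc (K:ℝ) = (K:ℝ) ^ (1/2 : ℝ) * (K:ℝ) ^ (1/2 : ℝ) := f1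
      _ ≤ (K:ℝ) ^ (1/2 : ℝ) * (G0 * (c2 * (K:ℝ) ^ e) * gth c K) :=
          mul_le_mul_of_nonneg_left f2 f3
      _ = (G0 * c2) * ((K:ℝ) ^ (1/2 : ℝ) * (K:ℝ) ^ e) * gth c K := by ring
      _ = _ := by rw [← Real.rpow_add hKp]
  have e5 : (32 * ((2 * CC c : ℕ) : ℝ) * K : ℝ) / gth c K ≤
      64 * CC c * (G0 * c2) * (K:ℝ) ^ (1/2 + e : ℝ) := by
    rw [div_le_iff₀ hg0]
    push_cast
    have := mul_le_mul_of_nonneg_left e4 (show (0:ℝ) ≤ 64 * CC c by positivity)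
    linarith
  unfold sF
  linarith

/-- the near bound has the order of the square root -/
lemma nearF_le {a μ b c : ℕ} (hc : 2 ≤ c) {m e : ℝ} (hm1 : 1 ≤ m) (hμ : (μ:ℝ) ≤ m) (he : 0 < e)
    (hcd : (a:ℝ) * Real.log m ≤ e * (c * Real.log 2)) :
    ∃ C0 : ℝ, 0 < C0 ∧ ∀ K : ℕ, 1 ≤ K →
      (nearF a μ b c K : ℝ) ≤ C0 * (K:ℝ) ^ (1/2 + 2 * e : ℝ) := by
  obtain ⟨c2, hc2, hlog2⟩ := log_pow_le_all b e he
  set Q : ℝ := ((b + 1) * (c + 1) ^ b : ℝ) with hQ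
  have hQ0 : 0 < Q := by positivity
  have hmp : 0 < m := by linarith
  refine ⟨m ^ (2 * a + b) * (Q * c2), by positivity, fun K hK => ?_⟩
  have hKr : (1:ℝ) ≤ K := by exact_mod_cast hK
  have hKp : (0:ℝ) < K := by linarith
  have h1 : ((μ:ℝ) ^ lenF a b c K) ≤ m ^ (2 * a + b) * (K:ℝ) ^ e := by
    have e1 : lenF a b c K = a * lg c K + (2 * a + b) := by unfold lenF; ring
    rw [e1]
    exact (pow_le_pow_left₀ (Nat.cast_nonneg _) hμ _).trans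
      (pow_lg_le_rpow (c := c) (K := K) (a := a) (b := 2 * a + b) m hm1 e he.le hK hcd)
  have h2 : (plog b K : ℝ) ≤ Q * (c2 * (K:ℝ) ^ e) := by
    have e1 := Pool.Agent.Helper82.ETN.plog_le c b K (by omega) hK
    have e2 : (1 + lg c K : ℝ) ^ b ≤ (1 + Real.log K) ^ b := by
      refine pow_le_pow_left₀ (add_nonneg zero_le_one (Nat.cast_nonneg _)) ?_ b
      have := lg_le_log hc hK
      linarith
    exact e1.trans (mul_le_mul_of_nonneg_left (e2.trans (hlog2 K hK)) hQ0.le)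
  have h3 := pow_ep_le (c := c) hK
  have h4 : (nearF a μ b c K : ℝ) = (μ:ℝ) ^ lenF a b c K * (plog b K : ℝ) *
      ((CC c ^ ep c K : ℕ) : ℝ) := by
    unfold nearF
    rw [Nat.cast_mul, Nat.cast_mul, Nat.cast_pow]
  rw [h4]
  have h5 : (0:ℝ) ≤ (K:ℝ) ^ e := Real.rpow_nonneg hKp.le _
  have h6 := mul_le_mul h1 h2 (Nat.cast_nonneg _) (by positivity)
  have h7 := mul_le_mul h6 h3 (Nat.cast_nonneg _) (by positivity)
  refine h7.trans (le_of_eq ?_)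
  calc m ^ (2 * a + b) * (K:ℝ) ^ e * (Q * (c2 * (K:ℝ) ^ e)) * (K:ℝ) ^ (1/2 : ℝ)
      = m ^ (2 * a + b) * (Q * c2) * ((K:ℝ) ^ e * (K:ℝ) ^ e * (K:ℝ) ^ (1/2 : ℝ)) := by ring
    _ = m ^ (2 * a + b) * (Q * c2) * (K:ℝ) ^ (1/2 + 2 * e : ℝ) := by
        rw [← Real.rpow_add hKp, ← Real.rpow_add hKp]
        congr 2
        ring

/-- from bounds at the scales to the bound of the number of representations -/
lemma rep_le {near s : ℕ → ℕ} {e d C0 : ℝ} (he : 0 < e) (hed : 3 * e ≤ d) (hC0 : 0 < C0)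
    (h : ∀ K : ℕ, 1 ≤ K → ((max (near K) (s K) : ℕ) : ℝ) ≤ C0 * (K:ℝ) ^ (1/2 + e : ℝ)) :
    ∃ n0 : ℕ, ∀ n : ℕ, n0 ≤ n → ((repF near s n : ℕ) : ℝ) ≤ (Real.log n) ^ (1/2 + d : ℝ) := by
  obtain ⟨c1, hc1, hlog1⟩ := log_pow_le_all 1 e he
  have hlogn : Tendsto (fun n : ℕ => Real.log (n:ℝ)) atTop atTop :=
    Real.tendsto_log_atTop.comp tendsto_natCast_atTop_atTop
  have hev : ∀ᶠ n : ℕ in atTop, 4 * (2 * c1) * C0 * 2 ^ (1/2 + 2 * e) ≤ (Real.log (n:ℝ)) ^ e :=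
    ((tendsto_rpow_atTop he).comp hlogn).eventually_ge_atTop _
  obtain ⟨n0, hn0⟩ := (hev.and (eventually_ge_atTop (2 ^ 4))).exists_forall_of_atTop
  refine ⟨n0, fun n hn => ?_⟩
  obtain ⟨h1, h2⟩ := hn0 n hn
  set L := Nat.log 2 n with hL
  have hLK : 4 ≤ L := by
    rw [hL]
    exact Nat.le_log_of_pow_le one_lt_two h2
  have hn1 : n ≠ 0 := by omega
  have hnr : (1:ℝ) ≤ n := by exact_mod_cast Nat.one_le_iff_ne_zero.2 hn1
  have hlog0 : 0 ≤ Real.log (n:ℝ) := Real.log_nonneg hnr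
  have hLr : (L:ℝ) ≤ 2 * Real.log n := by
    have e1 : ((2 ^ L : ℕ) : ℝ) ≤ n := by exact_mod_cast Nat.pow_log_le_self 2 hn1
    have e2 : (L:ℝ) * Real.log 2 ≤ Real.log n := by
      rw [← Real.log_pow]
      refine Real.log_le_log (by positivity) ?_
      push_cast at e1
      exact e1
    have e3 := Real.log_two_gt_d9
    have e4 : (0:ℝ) ≤ L := Nat.cast_nonneg _
    nlinarith
  have hL4 : (4:ℝ) ≤ L := by exact_mod_cast hLK
  have hlog1' : 1 ≤ Real.log (n:ℝ) := by linarith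
  have hlogpos : 0 < Real.log (n:ℝ) := by linarith
  -- one scale
  have one : ∀ K : ℕ, 1 ≤ K → K ≤ L →
      (((Nat.log 2 K + 1) * max (near K) (s K) : ℕ) : ℝ) ≤
        2 * c1 * C0 * (2 * Real.log n) ^ (1/2 + 2 * e) := by
    intro K hK hKL
    have hKr : (1:ℝ) ≤ K := by exact_mod_cast hK
    have hKp : (0:ℝ) < K := by linarith
    have a1 : ((Nat.log 2 K + 1 : ℕ) : ℝ) ≤ 2 * (1 + Real.log K) := by
      have b1 : ((2 ^ Nat.log 2 K : ℕ) : ℝ) ≤ K := by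
        exact_mod_cast Nat.pow_log_le_self 2 (by omega)
      have b2 : (Nat.log 2 K : ℝ) * Real.log 2 ≤ Real.log K := by
        rw [← Real.log_pow]
        refine Real.log_le_log (by positivity) ?_
        push_cast at b1
        exact b1
      have b3 := Real.log_two_gt_d9
      have b4 : (0:ℝ) ≤ (Nat.log 2 K : ℝ) := Nat.cast_nonneg _
      have b5 : 0 ≤ Real.log (K:ℝ) := Real.log_nonneg hKr
      push_cast
      nlinarith
    have a2 := hlog1 K hK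
    rw [pow_one] at a2
    have a3 : ((Nat.log 2 K + 1 : ℕ) : ℝ) ≤ 2 * c1 * (K:ℝ) ^ e := by linarith
    have a4 := h K hK
    rw [Nat.cast_mul]
    calc ((Nat.log 2 K + 1 : ℕ) : ℝ) * ((max (near K) (s K) : ℕ) : ℝ)
        ≤ (2 * c1 * (K:ℝ) ^ e) * (C0 * (K:ℝ) ^ (1/2 + e : ℝ)) :=
          mul_le_mul a3 a4 (Nat.cast_nonneg _) (by positivity)
      _ = 2 * c1 * C0 * ((K:ℝ) ^ e * (K:ℝ) ^ (1/2 + e : ℝ)) := by ring
      _ = 2 * c1 * C0 * (K:ℝ) ^ (1/2 + 2 * e : ℝ) := by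
          rw [← Real.rpow_add hKp]
          congr 2
          ring
      _ ≤ 2 * c1 * C0 * (2 * Real.log n) ^ (1/2 + 2 * e) := by
          refine mul_le_mul_of_nonneg_left ?_ (by positivity)
          refine Real.rpow_le_rpow hKp.le ?_ (by positivity)
          have : (K:ℝ) ≤ L := by exact_mod_cast hKL
          linarith
  have s1 := one (L - 1) (by omega) (by omega)
  have s2 := one L (by omega) le_rfl
  have b5 : (2 * Real.log n) ^ (1/2 + 2 * e) = 2 ^ (1/2 + 2 * e) * (Real.log n) ^ (1/2 + 2 * e) :=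
    Real.mul_rpow (by norm_num) hlog0
  have b6 : (Real.log n) ^ (1/2 + 3 * e) = (Real.log n) ^ e * (Real.log n) ^ (1/2 + 2 * e) := by
    rw [← Real.rpow_add hlogpos]
    congr 1
    ring
  have b7 : 0 ≤ (Real.log n) ^ (1/2 + 2 * e) := Real.rpow_nonneg hlog0 _
  have b8 : (Real.log n) ^ (1/2 + 3 * e) ≤ (Real.log n) ^ (1/2 + d) :=
    Real.rpow_le_rpow_of_exponent_le hlog1' (by linarith)
  refine le_trans ?_ b8
  unfold repF
  rw [← hL, Nat.cast_mul, Nat.cast_add, b6]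
  rw [b5] at s1 s2
  have h3 := mul_le_mul_of_nonneg_right h1 b7
  push_cast at s1 s2 ⊢
  linarith

/-- **The numerical part.** -/
theorem numPart (a μ : ℕ) : NumPart a μ := by
  intro d hd
  set m : ℝ := max 1 (μ : ℝ) with hm
  have hm1 : 1 ≤ m := le_max_left _ _
  set e : ℝ := d / 6 with he
  have he0 : 0 < e := by positivity
  obtain ⟨c1, hc1⟩ := exists_nat_ge ((a:ℝ) * Real.log m / (e * Real.log 2))
  refine ⟨max c1 2, fun c hc b K1 hK1 => ?_⟩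
  have hc2 : 2 ≤ c := (le_max_right _ _).trans hc
  have hc3 : (c1 : ℝ) ≤ c := by exact_mod_cast (le_max_left _ _).trans hc
  have hlog2 : 0 < Real.log 2 := Real.log_pos one_lt_two
  have hcd : (a:ℝ) * Real.log m ≤ e * (c * Real.log 2) := by
    have h1 : (a:ℝ) * Real.log m / (e * Real.log 2) ≤ c := hc1.trans hc3
    rw [div_le_iff₀ (by positivity)] at h1
    calc (a:ℝ) * Real.log m ≤ c * (e * Real.log 2) := h1
      _ = _ := by ring
  have hK1' : 1 ≤ K1 := le_trans (Nat.one_le_pow _ _ (CC_pos c)) hK1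
  obtain ⟨K0, hK0, hf⟩ := fail_lt (a := a) (b := b) hc2 hK1'
  obtain ⟨C1, hC1, h1⟩ := nearF_le (a := a) (μ := μ) (b := b) hc2 hm1 (le_max_right _ _) he0 hcd
  obtain ⟨C2, hC2, h2⟩ := sF_le hc2 (e := 2 * e) (by positivity)
  obtain ⟨n0, hn0⟩ := rep_le (near := nearF a μ b c) (s := sF c) (e := 2 * e) (d := d)
    (C0 := C1 + C2) (by positivity) (by rw [he]; linarith) (by positivity) (fun K hK => by
      have e1 := h1 K hK
      have e2 := h2 K hK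
      have hKp : (0:ℝ) ≤ (K:ℝ) ^ (1/2 + 2 * e : ℝ) := Real.rpow_nonneg (Nat.cast_nonneg _) _
      have e3 : 0 ≤ C1 * (K:ℝ) ^ (1/2 + 2 * e : ℝ) := mul_nonneg hC1.le hKp
      have e4 : 0 ≤ C2 * (K:ℝ) ^ (1/2 + 2 * e : ℝ) := mul_nonneg hC2.le hKp
      rw [Nat.cast_max, add_mul]
      exact max_le (by linarith) (by linarith))
  exact ⟨K0, sF c, hK0, hf, n0, hn0⟩

end Pool.Agent.Helper82.E2
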